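import Mathlib
import Pool.Agent.H80.RatPosDefs
import Pool.Agent.H80.RatPos

open Pool.Agent.H80.RatPos Polynomial

open Classical in
theorem Pool.Agent.Results.MP_57f692_ag.AllFinitelyGenerated.result :
    Pos (Set.Icc 0 ((2 : ℝ) ^ (1 / 3 : ℝ))) = T {X, 2 - X ^ 3} ∧
    Pos (Set.Icc √2 √3) = T {X, X ^ 2 - 2, 3 - X ^ 2} ∧
    Pos (Set.Icc (-(2 : ℝ) ^ (1 / 4 : ℝ)) ((2 : ℝ) ^ (1 / 4 : ℝ))) = T {2 - X ^ 4} ∧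
    (X - 1 : ℚ[X]) ∈ T {X, X ^ 2 - 2, 3 - X ^ 2} := by
  refine ⟨?_, ?_, K3, ?_⟩
  · convert K1
  · convert K2
  · convert K2_mem
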